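import Pool.Agent.H41.GL.Data

/-!
# Kernel check of the certificate, starting times 97 to 109 (generated)
-/

namespace Pool.Agent.H41.GL

theorem blk22 : app (wRun 97 102 slots 0 (Nat.mul ONES VV)) (iniN PP0) = true := by
  decide +kernel

theorem blk23 : app (wRun 103 109 slots 0 (Nat.mul ONES VV)) (iniN PP0) = true := by
  decide +kernel

end Pool.Agent.H41.GL
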