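import Pool.Agent.H41.GL.Blk.B0
import Pool.Agent.H41.GL.Blk.B1
import Pool.Agent.H41.GL.Blk.B2
import Pool.Agent.H41.GL.Blk.B3
import Pool.Agent.H41.GL.Blk.B4
import Pool.Agent.H41.GL.Blk.B5
import Pool.Agent.H41.GL.Blk.B6
import Pool.Agent.H41.GL.Blk.B7
import Pool.Agent.H41.GL.Blk.B8
import Pool.Agent.H41.GL.Blk.B9
import Pool.Agent.H41.GL.Blk.B10
import Pool.Agent.H41.GL.Blk.B11
import Pool.Agent.H41.GL.Blk.B12
import Pool.Agent.H41.GL.Blk.B13
import Pool.Agent.H41.GL.Blk.Z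

/-!
# All blocks (generated)
-/

namespace Pool.Agent.H41.GL

theorem blk_all : ∀ c, 1 ≤ c → c ≤ 136 → ∃ lo hi, lo ≤ c ∧ c ≤ hi ∧
    app (wRun lo hi slots 0 (Nat.mul ONES VV)) (iniN PP0) = true := by
  intro c hc hc'
  by_cases h0 : c ≤ 4
  · exact ⟨1, 4, by omega, by omega, blk0⟩
  by_cases h1 : c ≤ 8
  · exact ⟨5, 8, by omega, by omega, blk1⟩
  by_cases h2 : c ≤ 12
  · exact ⟨9, 12, by omega, by omega, blk2⟩
  by_cases h3 : c ≤ 16
  · exact ⟨13, 16, by omega, by omega, blk3⟩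
  by_cases h4 : c ≤ 20
  · exact ⟨17, 20, by omega, by omega, blk4⟩
  by_cases h5 : c ≤ 24
  · exact ⟨21, 24, by omega, by omega, blk5⟩
  by_cases h6 : c ≤ 28
  · exact ⟨25, 28, by omega, by omega, blk6⟩
  by_cases h7 : c ≤ 32
  · exact ⟨29, 32, by omega, by omega, blk7⟩
  by_cases h8 : c ≤ 36
  · exact ⟨33, 36, by omega, by omega, blk8⟩
  by_cases h9 : c ≤ 40
  · exact ⟨37, 40, by omega, by omega, blk9⟩
  by_cases h10 : c ≤ 44
  · exact ⟨41, 44, by omega, by omega, blk10⟩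
  by_cases h11 : c ≤ 48
  · exact ⟨45, 48, by omega, by omega, blk11⟩
  by_cases h12 : c ≤ 52
  · exact ⟨49, 52, by omega, by omega, blk12⟩
  by_cases h13 : c ≤ 56
  · exact ⟨53, 56, by omega, by omega, blk13⟩
  by_cases h14 : c ≤ 60
  · exact ⟨57, 60, by omega, by omega, blk14⟩
  by_cases h15 : c ≤ 65
  · exact ⟨61, 65, by omega, by omega, blk15⟩
  by_cases h16 : c ≤ 70
  · exact ⟨66, 70, by omega, by omega, blk16⟩
  by_cases h17 : c ≤ 75
  · exact ⟨71, 75, by omega, by omega, blk17⟩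
  by_cases h18 : c ≤ 80
  · exact ⟨76, 80, by omega, by omega, blk18⟩
  by_cases h19 : c ≤ 85
  · exact ⟨81, 85, by omega, by omega, blk19⟩
  by_cases h20 : c ≤ 90
  · exact ⟨86, 90, by omega, by omega, blk20⟩
  by_cases h21 : c ≤ 96
  · exact ⟨91, 96, by omega, by omega, blk21⟩
  by_cases h22 : c ≤ 102
  · exact ⟨97, 102, by omega, by omega, blk22⟩
  by_cases h23 : c ≤ 109
  · exact ⟨103, 109, by omega, by omega, blk23⟩
  by_cases h24 : c ≤ 117
  · exact ⟨110, 117, by omega, by omega, blk24⟩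
  by_cases h25 : c ≤ 127
  · exact ⟨118, 127, by omega, by omega, blk25⟩
  exact ⟨128, 136, by omega, by omega, blk26⟩

end Pool.Agent.H41.GL
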